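import Mathlib
import Pool.Agent.N967.All3
import Pool.Agent.N967.Lam
import Pool.Agent.N967.Quo
import Pool.Agent.W54.TCF.ZMult

/-!
# The zeros of Hardy's function are simple if and only if the constant in Baez-Duarte's distance is minimal

For Dirichlet polynomials `A` of length `N` let `d_N²` be the infimum of
`1 / (2 π) ∫ |1 - ζ(1/2 + i t) A(1/2 + i t)|² / (1/4 + t²) dt`.
Under the Riemann hypothesis `d_N² log N` tends to `2 + γ - log (4 π) + ∑ (m² - m) / (1/4 + t²)`, the sum over the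
zeros `t` of `Z`, `m` the multiplicity.  So the Riemann hypothesis holds and all zeros of `Z` are simple if and only if
`d_N² log N` tends to `2 + γ - log (4 π)`, as conjectured by Baez-Duarte, Balazard, Landreau and Saias.
-/

set_option autoImplicit false

namespace Pool.Agent.Results.MP_6bc78b_nt.BaezDuarteConstant

open Complex MeasureTheory Filter Topology

/-- the phase `exp (i ϑ(t))`, with `ϑ(t) = arg Γ(1/4 + i t / 2) - (t / 2) log π` -/
noncomputable def phase (t : ℝ) : ℂ :=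
  Gamma (1 / 4 + I * t / 2) / ‖Gamma (1 / 4 + I * t / 2)‖ * cexp (-(I * (t / 2) * Real.log Real.pi))

/-- Hardy's function `Z(t) = exp (i ϑ(t)) ζ(1/2 + i t)` -/
noncomputable def Z (t : ℝ) : ℂ := phase t * riemannZeta (1 / 2 + I * t)

/-- the multiplicity of a real zero of `Z` -/
noncomputable def mlt (t : ℝ) : ℕ := sInf {m : ℕ | 1 ≤ m ∧ iteratedDeriv m Z t ≠ 0}

/-- the integrand of the distance for the Dirichlet polynomial with the coefficients `a` and the length `N` -/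
noncomputable def integrand (N : ℕ) (a : ℕ → ℂ) (t : ℝ) : ℝ :=
  ‖1 - riemannZeta (1 / 2 + t * I) * ∑ n ∈ Finset.Icc 1 N, a n * (n : ℂ) ^ (-(1 / 2 + t * I))‖ ^ 2 / (1 / 4 + t ^ 2)

/-- the square of the distance in the criterion of Nyman, Beurling and Baez-Duarte -/
noncomputable def distSq (N : ℕ) : ℝ := ⨅ a : ℕ → ℂ, 1 / (2 * Real.pi) * ∫ t : ℝ, integrand N a t

open Pool.Agent.N967 in
theorem distSq_eq (N : ℕ) : distSq N = dd N := rfl

theorem Z_eq : Z = Pool.Agent.W54.TCF.Z := rfl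

theorem mlt_eq (t : ℝ) : mlt t = Pool.Agent.W54.TCF.mlt t := rfl

theorem phase_ne (t : ℝ) : phase t ≠ 0 := Pool.Agent.W54.TCF.phase_ne t

theorem Z_zero_iff (t : ℝ) : Z t = 0 ↔ riemannZeta (1 / 2 + I * t) = 0 := by
  unfold Z
  simp [phase_ne]

theorem isZ_of_Z {t : ℝ} (h : Z t = 0) : Pool.Agent.Y23.IsZ (1 / 2 + I * t) := by
  refine ⟨(Z_zero_iff t).1 h, ?_, ?_⟩
  · simp
  · simp
    norm_num

theorem mlt_mu {t : ℝ} (h : Z t = 0) : mlt t = Pool.Agent.Y23.mu (1 / 2 + I * t) := by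
  have hz := isZ_of_Z h
  refine Pool.Agent.W54.TCF.mlt_eq t h ?_
  rw [← Pool.Agent.Y23.order_eq hz.2.1 hz.2.2]
  exact Pool.Agent.Y23.XX_ne_top _

theorem mlt_one {t : ℝ} (h : Z t = 0) : 1 ≤ mlt t := by
  rw [mlt_mu h]
  exact Pool.Agent.Y23.mu_pos (isZ_of_Z h)

theorem simple_iff {t : ℝ} (h : Z t = 0) : deriv Z t ≠ 0 ↔ mlt t = 1 := by
  constructor
  · intro hd
    refine le_antisymm (Nat.sInf_le ⟨le_rfl, ?_⟩) (mlt_one h)
    rw [iteratedDeriv_one]
    exact hd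
  · intro h1
    have hne : {m : ℕ | 1 ≤ m ∧ iteratedDeriv m Z t ≠ 0}.Nonempty := by
      by_contra hcon
      rw [Set.not_nonempty_iff_eq_empty] at hcon
      unfold mlt at h1
      rw [hcon, Nat.sInf_empty] at h1
      omega
    have h2 := Nat.sInf_mem hne
    change 1 ≤ mlt t ∧ iteratedDeriv (mlt t) Z t ≠ 0 at h2
    rw [h1, iteratedDeriv_one] at h2
    exact h2.2

/-- the zeros of `Z` and the nontrivial zeros of the zeta function -/
noncomputable def eqv (hRH : RiemannHypothesis) : {t : ℝ // Z t = 0} ≃ Pool.Agent.N967.ZZ where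
  toFun t := ⟨1 / 2 + I * (t : ℝ), isZ_of_Z t.2⟩
  invFun ρ := ⟨(ρ : ℂ).im, by
    have h1 := ρ.2
    have h2 : (ρ : ℂ).re = 1 / 2 := by
      refine hRH _ h1.1 ?_ ?_
      · rintro ⟨n, hn⟩
        have h3 := h1.2.1
        rw [hn] at h3
        simp at h3
        have h4 : (0 : ℝ) ≤ n := Nat.cast_nonneg n
        linarith
      · intro h3
        have h4 := h1.2.2
        rw [h3] at h4
        simp at h4
    rw [Z_zero_iff]
    have e : (1 / 2 + I * (((ρ : ℂ).im : ℝ) : ℂ) : ℂ) = ρ := by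
      apply Complex.ext
      · simp [h2]
      · simp
    rw [e]
    exact h1.1⟩
  left_inv t := by
    apply Subtype.ext
    simp
  right_inv ρ := by
    apply Subtype.ext
    have h1 := ρ.2
    have h2 : (ρ : ℂ).re = 1 / 2 := by
      refine hRH _ h1.1 ?_ ?_
      · rintro ⟨n, hn⟩
        have h3 := h1.2.1
        rw [hn] at h3
        simp at h3
        have h4 : (0 : ℝ) ≤ n := Nat.cast_nonneg n
        linarith
      · intro h3
        have h4 := h1.2.2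
        rw [h3] at h4
        simp at h4
    apply Complex.ext
    · simp [h2]
    · simp

theorem norm_sq (t : ℝ) : ‖(1 / 2 + I * t : ℂ)‖ ^ 2 = 1 / 4 + t ^ 2 := by
  rw [← Complex.normSq_eq_norm_sq, Complex.normSq_apply]
  simp
  ring

open Pool.Agent.N967 in
theorem sums (hRH : RiemannHypothesis) :
    Summable (fun t : {t : ℝ // Z t = 0} => (mlt t : ℝ) * ((mlt t : ℝ) - 1) / (1 / 4 + (t : ℝ) ^ 2)) ∧
    Tendsto (fun N : ℕ => distSq N * Real.log N) atTop
      (𝓝 (2 + Real.eulerMascheroniConstant - Real.log (4 * Real.pi) +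
        ∑' t : {t : ℝ // Z t = 0}, (mlt t : ℝ) * ((mlt t : ℝ) - 1) / (1 / 4 + (t : ℝ) ^ 2))) := by
  have h1 := lam quo hRH
  obtain ⟨h2, h3⟩ := asym_all hRH
  have e : ∀ t : {t : ℝ // Z t = 0}, (mlt t : ℝ) * ((mlt t : ℝ) - 1) / (1 / 4 + (t : ℝ) ^ 2) =
      (Pool.Agent.Y23.mu (eqv hRH t : ℂ) : ℝ) ^ 2 / ‖(eqv hRH t : ℂ)‖ ^ 2 -
        (Pool.Agent.Y23.mu (eqv hRH t : ℂ) : ℝ) / ‖(eqv hRH t : ℂ)‖ ^ 2 := by
    intro t
    have e1 : (eqv hRH t : ℂ) = 1 / 2 + I * ((t : ℝ) : ℂ) := rfl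
    rw [e1, norm_sq, mlt_mu t.2]
    ring
  have h4 := (h2.hasSum.sub h1)
  have h5 := (eqv hRH).hasSum_iff.2 h4
  have h6 : HasSum (fun t : {t : ℝ // Z t = 0} => (mlt t : ℝ) * ((mlt t : ℝ) - 1) / (1 / 4 + (t : ℝ) ^ 2))
      ((∑' ρ : ZZ, (Pool.Agent.Y23.mu ρ : ℝ) ^ 2 / ‖(ρ : ℂ)‖ ^ 2) -
        (2 + Real.eulerMascheroniConstant - Real.log (4 * Real.pi))) := by
    refine h5.congr_fun ?_
    intro t
    rw [e t]
    rfl
  refine ⟨h6.summable, ?_⟩
  rw [h6.tsum_eq]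
  have e2 : 2 + Real.eulerMascheroniConstant - Real.log (4 * Real.pi) +
      ((∑' ρ : ZZ, (Pool.Agent.Y23.mu ρ : ℝ) ^ 2 / ‖(ρ : ℂ)‖ ^ 2) -
        (2 + Real.eulerMascheroniConstant - Real.log (4 * Real.pi))) =
      ∑' ρ : ZZ, (Pool.Agent.Y23.mu ρ : ℝ) ^ 2 / ‖(ρ : ℂ)‖ ^ 2 := by ring
  rw [e2]
  exact h3

theorem rh_of_tendsto {ℓ : ℝ} (hℓ : Tendsto (fun N : ℕ => distSq N * Real.log N) atTop (𝓝 ℓ)) :
    RiemannHypothesis := by
  by_contra hRH
  obtain ⟨c, hc, h⟩ := Pool.Agent.N967.low_off hRH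
  have h1 : Tendsto (fun N : ℕ => c * Real.log N) atTop atTop :=
    (Real.tendsto_log_atTop.comp tendsto_natCast_atTop_atTop).const_mul_atTop hc
  have h2 : Tendsto (fun N : ℕ => distSq N * Real.log N) atTop atTop := by
    refine tendsto_atTop_mono' _ ?_ h1
    filter_upwards [eventually_ge_atTop 1] with N hN
    exact mul_le_mul_of_nonneg_right (h N) (Real.log_nonneg (by exact_mod_cast hN))
  exact not_tendsto_nhds_of_tendsto_atTop h2 ℓ hℓ

theorem result :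
    (∀ (N : ℕ) (a : ℕ → ℂ), Integrable (integrand N a)) ∧
    (RiemannHypothesis →
      Summable (fun t : {t : ℝ // Z t = 0} => (mlt t : ℝ) * ((mlt t : ℝ) - 1) / (1 / 4 + (t : ℝ) ^ 2)) ∧
      Tendsto (fun N : ℕ => distSq N * Real.log N) atTop
        (𝓝 (2 + Real.eulerMascheroniConstant - Real.log (4 * Real.pi) +
          ∑' t : {t : ℝ // Z t = 0}, (mlt t : ℝ) * ((mlt t : ℝ) - 1) / (1 / 4 + (t : ℝ) ^ 2)))) ∧
    ((RiemannHypothesis ∧ ∀ t : ℝ, Z t = 0 → deriv Z t ≠ 0) ↔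
      Tendsto (fun N : ℕ => distSq N * Real.log N) atTop
        (𝓝 (2 + Real.eulerMascheroniConstant - Real.log (4 * Real.pi)))) := by
  refine ⟨fun N a => Pool.Agent.N967.int_ig N a, sums, ?_, ?_⟩
  · rintro ⟨hRH, hs⟩
    obtain ⟨-, h2⟩ := sums hRH
    have h3 : ∑' t : {t : ℝ // Z t = 0}, (mlt t : ℝ) * ((mlt t : ℝ) - 1) / (1 / 4 + (t : ℝ) ^ 2) = 0 := by
      have h4 : ∀ t : {t : ℝ // Z t = 0}, (mlt t : ℝ) * ((mlt t : ℝ) - 1) / (1 / 4 + (t : ℝ) ^ 2) = 0 := by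
        intro t
        rw [(simple_iff t.2).1 (hs t t.2)]
        simp
      simp only [h4, tsum_zero]
    rw [h3, add_zero] at h2
    exact h2
  · intro h
    have hRH := rh_of_tendsto h
    refine ⟨hRH, fun t ht => ?_⟩
    obtain ⟨h1, h2⟩ := sums hRH
    have h3 := tendsto_nhds_unique h h2
    have h4 : ∑' t : {t : ℝ // Z t = 0}, (mlt t : ℝ) * ((mlt t : ℝ) - 1) / (1 / 4 + (t : ℝ) ^ 2) = 0 := by
      linarith
    have h5 : ∀ u : {t : ℝ // Z t = 0}, 0 ≤ (mlt u : ℝ) * ((mlt u : ℝ) - 1) / (1 / 4 + (u : ℝ) ^ 2) := by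
      intro u
      have h6 : (1 : ℝ) ≤ mlt u := by exact_mod_cast mlt_one u.2
      have h7 : (0 : ℝ) ≤ (mlt u : ℝ) - 1 := by linarith
      positivity
    have h11 := h1.hasSum
    rw [h4] at h11
    have h7 : (mlt t : ℝ) * ((mlt t : ℝ) - 1) / (1 / 4 + t ^ 2) = 0 := by
      refine le_antisymm ?_ (h5 ⟨t, ht⟩)
      exact le_hasSum h11 (⟨t, ht⟩ : {t : ℝ // Z t = 0}) fun u _ => h5 u
    have h8 : (0 : ℝ) < 1 / 4 + t ^ 2 := by positivity
    rw [div_eq_zero_iff] at h7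
    rw [simple_iff ht]
    have h9 : (1 : ℝ) ≤ mlt t := by exact_mod_cast mlt_one ht
    rcases h7 with h7 | h7
    · rcases mul_eq_zero.1 h7 with h10 | h10
      · rw [h10] at h9
        linarith
      · have : (mlt t : ℝ) = 1 := by linarith
        exact_mod_cast this
    · exact absurd h7 h8.ne'

end Pool.Agent.Results.MP_6bc78b_nt.BaezDuarteConstant
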