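import Pool.Agent.N41.RM.Off2
import Pool.Agent.N41.RM.Bad
import Pool.Agent.TH958.An.Zeta
import Pool.Agent.W54.TCF.ZMult

/-!
# The multiplicities of the zeros of Hardy's function from sums over primes

For real `t` and `γ > π/2` the sum over the primes and their powers

`V(t,T) = ∑_p ∑_{k ≥ 1} cos(t k log p) / (k p^{k/2}) · exp(iγ k log p / T) / Γ(1 + k log p / T)`

converges absolutely for every `T > 0`.  We prove, without any hypothesis and for every real `t`,

`V(t,T) = -m (log T - Λ_γ) + log (|Z^(m)(t)| / m!) - π i N + O(1/T)`,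

where `m ≥ 0` is the multiplicity of `t` as a zero of `Z` (the least `m` with `Z^(m)(t) ≠ 0`) and `N` is
the number of the zeros of zeta on the open half line `Re s > 1/2`, `Im s = t`.  So the multiplicity
is the limit of `-Re V(t,T) / log T`, and the zeros of `Z` are all simple if and only if
`T² exp (Re V(t,T))` is unbounded for every `t`.

Proof: the rotated mean with the weights `exp(iγ v) / Γ(1 + v)`, `γ > π/2`, of the starting modules
`Pool.Agent.W187.UR`, `Pool.Agent.W189` depends only on the function near the positive real axis, and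
is asymptotic to the logarithm of the function at the origin.  It is applied to the product
`ζ(1/2 + it + w) ζ(1/2 - it + w)`, a Dirichlet series with real coefficients in `w`, whose zeros on the
real axis have twice the multiplicities of the zeros of zeta on the horizontal line
(`Pool.Agent.N41.RM.Off`).
-/

set_option autoImplicit false

open Complex Filter Topology

namespace Pool.Agent.Results.MP_6bc78b_nt.MultiplicitiesFromPrimes

/-- the phase `exp (i ϑ(t))`, with `ϑ(t) = arg Γ(1/4 + i t / 2) - (t / 2) log π` -/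
noncomputable def phase (t : ℝ) : ℂ :=
  Gamma (1 / 4 + I * t / 2) / ‖Gamma (1 / 4 + I * t / 2)‖ * cexp (-(I * (t / 2) * Real.log Real.pi))

/-- Hardy's function `Z(t) = exp (i ϑ(t)) ζ(1/2 + i t)` -/
noncomputable def Z (t : ℝ) : ℂ := phase t * riemannZeta (1 / 2 + I * t)

/-- the multiplicity of `t` as a zero of `Z`: the least `m ≥ 0` such that the `m`-th derivative of `Z`
at `t` is not zero (`0` if `Z(t) ≠ 0`) -/
noncomputable def mult (t : ℝ) : ℕ := sInf {m : ℕ | iteratedDeriv m Z t ≠ 0}

/-- the number of the zeros of zeta on the open half line `{σ + it : σ > 1/2}`, counted with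
multiplicity, minus `1` for the pole `s = 1` if `t = 0` -/
noncomputable def zerosRight (t : ℝ) : ℤ :=
  ∑ᶠ σ ∈ Set.Ioi (1 / 2 : ℝ), (meromorphicOrderAt riemannZeta (σ + t * I)).untop₀

/-- the term of `V(t,T)` for the prime `p = x.1` and the exponent `k = x.2 + 1` -/
noncomputable def term (γ t T : ℝ) (x : Nat.Primes × ℕ) : ℂ :=
  ((Real.cos (t * ((x.2 + 1) * Real.log x.1)) / ((x.2 + 1) * Real.sqrt ((x.1 : ℝ) ^ (x.2 + 1))) : ℝ) : ℂ) *
    (cexp ((γ * ((x.2 + 1) * Real.log x.1 / T) : ℝ) * I) /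
      (Real.Gamma (1 + (x.2 + 1) * Real.log x.1 / T) : ℂ))

/-- `V(t,T)` -/
noncomputable def V (γ t T : ℝ) : ℂ := ∑' x : Nat.Primes × ℕ, term γ t T x

/-- `Λ_γ = ∫_0^∞ (e^{-u} - e^{iγu} / Γ(1 + u)) du / u`. -/
noncomputable def Lam (γ : ℝ) : ℂ := ∫ u in Set.Ioi (0 : ℝ),
  (cexp (-(u : ℂ)) - cexp ((γ * u : ℝ) * I) * ((Real.Gamma (1 + u))⁻¹ : ℝ)) / u

/-! ### The leading coefficient of `Z` -/

lemma iter_pow_mul (n : ℕ) (t : ℝ) (g : ℝ → ℂ) (hg : AnalyticAt ℝ g t) :
    iteratedDeriv n (fun u : ℝ => ((u - t : ℝ) : ℂ) ^ n * g u) t = n.factorial * g t := by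
  induction n generalizing g with
  | zero => simp
  | succ n ih =>
    rw [iteratedDeriv_succ']
    have h1 : deriv (fun u : ℝ => ((u - t : ℝ) : ℂ) ^ (n + 1) * g u) =ᶠ[𝓝 t]
        fun u => ((u - t : ℝ) : ℂ) ^ n * ((n + 1) * g u + ((u - t : ℝ) : ℂ) * deriv g u) := by
      filter_upwards [hg.eventually_analyticAt] with u hu
      have hp : HasDerivAt (fun u : ℝ => ((u - t : ℝ) : ℂ) ^ (n + 1))
          (((n : ℂ) + 1) * ((u - t : ℝ) : ℂ) ^ n) u := by
        have h2 : HasDerivAt (fun u : ℝ => ((u - t : ℝ) : ℂ)) 1 u := by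
          have := ((hasDerivAt_id u).sub_const t).ofReal_comp
          simpa using this
        have := h2.fun_pow (n + 1)
        simpa using this
      have := hp.fun_mul hu.differentiableAt.hasDerivAt
      rw [this.deriv]
      ring
    have h3 : AnalyticAt ℝ (fun u : ℝ => ((u - t : ℝ) : ℂ)) t := by
      have h4 : AnalyticAt ℝ (fun u : ℝ => u - t) t := analyticAt_id.sub analyticAt_const
      exact AnalyticAt.fun_comp (g := fun x : ℝ => (x : ℂ)) (Complex.ofRealCLM.analyticAt _) h4
    rw [h1.iteratedDeriv_eq, ih (fun u => (n + 1) * g u + ((u - t : ℝ) : ℂ) * deriv g u)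
      ((analyticAt_const.mul hg).add (h3.mul hg.deriv))]
    simp only [sub_self, Complex.ofReal_zero, zero_mul, add_zero, Nat.factorial_succ]
    push_cast
    ring

lemma norm_phase (t : ℝ) : ‖phase t‖ = 1 := by
  unfold phase
  have h1 : ‖Gamma (1 / 4 + I * t / 2)‖ ≠ 0 := by
    rw [norm_ne_zero_iff]
    exact Pool.Agent.W54.TCF.gamma_ne t
  have h2 : (-(I * (t / 2) * Real.log Real.pi)) = ((-(t / 2 * Real.log Real.pi) : ℝ) : ℂ) * I := by
    push_cast; ring
  rw [norm_mul, norm_div, Complex.norm_real, norm_norm, div_self h1, h2,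
    Complex.norm_exp_ofReal_mul_I, one_mul]

/-- multiplicity and leading coefficient of `Z` in terms of zeta -/
lemma mult_spec (t : ℝ) {n : ℤ} {l : ℂ} (hn : meromorphicOrderAt riemannZeta (1 / 2 + t * I) = n)
    (hl : meromorphicTrailingCoeffAt riemannZeta (1 / 2 + t * I) = l) (hl0 : l ≠ 0) :
    n = mult t ∧ ‖iteratedDeriv (mult t) Z t‖ / (mult t).factorial = ‖l‖ := by
  have hz : (1 / 2 + t * I : ℂ) = 1 / 2 + I * t := by ring
  rw [hz] at hn hl
  have ha := Pool.Agent.W54.TCF.zeta_analytic (Pool.Agent.W54.TCF.half_ne t)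
  have hon : analyticOrderAt riemannZeta (1 / 2 + I * t) ≠ ⊤ := by
    intro h
    rw [ha.meromorphicOrderAt_eq, h] at hn
    simp at hn
  obtain ⟨k, hk⟩ := ENat.ne_top_iff_exists.mp hon
  obtain ⟨g, hg, hg0, hev⟩ := ha.analyticOrderAt_eq_natCast.mp hk.symm
  have hnk : n = (k : ℤ) := by
    rw [ha.meromorphicOrderAt_eq, ← hk] at hn
    simp only [ENat.map_natCast] at hn
    exact_mod_cast hn.symm
  -- the leading coefficient
  have hlg : l = g (1 / 2 + I * t) := by
    have h1 := Pool.Agent.N41.RM.lim_of_order ha.meromorphicAt hn hl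
    have h2 : Tendsto g (𝓝[≠] (1 / 2 + I * t)) (𝓝 (g (1 / 2 + I * t))) :=
      hg.continuousAt.tendsto.mono_left nhdsWithin_le_nhds
    refine tendsto_nhds_unique h1 (h2.congr' ?_)
    filter_upwards [hev.filter_mono nhdsWithin_le_nhds, self_mem_nhdsWithin] with s hs hs2
    have h3 : s - (1 / 2 + I * t) ≠ 0 := sub_ne_zero.2 hs2
    rw [hs, hnk, smul_eq_mul, zpow_neg, zpow_natCast, ← mul_assoc,
      inv_mul_cancel₀ (pow_ne_zero _ h3), one_mul]
  -- `Z` near `t`
  set h : ℝ → ℂ := fun u => I ^ k * (phase u * g (1 / 2 + I * u)) with hh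
  have hha : AnalyticAt ℝ h t :=
    analyticAt_const.mul ((Pool.Agent.W54.TCF.phase_analytic t).mul
      (Pool.Agent.W54.TCF.comp_affine hg))
  have hZ : Z =ᶠ[𝓝 t] fun u : ℝ => ((u - t : ℝ) : ℂ) ^ k * h u := by
    have hc : Tendsto (fun u : ℝ => (1 / 2 + I * u : ℂ)) (𝓝 t) (𝓝 (1 / 2 + I * t)) := by
      apply Continuous.tendsto
      fun_prop
    filter_upwards [hc.eventually hev] with u hu
    unfold Z
    rw [hu, hh]
    simp only [smul_eq_mul]
    have : (1 / 2 + I * u - (1 / 2 + I * t) : ℂ) = I * (u - t) := by ring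
    rw [this, mul_pow]
    push_cast
    ring
  have hnorm : ‖h t‖ = ‖g (1 / 2 + I * t)‖ := by
    rw [hh]
    simp only [norm_mul, norm_pow, Complex.norm_I, one_pow, one_mul, norm_phase]
  have hder : iteratedDeriv k Z t = k.factorial * h t := by
    rw [hZ.iteratedDeriv_eq, iter_pow_mul k t h hha]
  have hder0 : iteratedDeriv k Z t ≠ 0 := by
    rw [hder]
    refine mul_ne_zero (by exact_mod_cast k.factorial_ne_zero) ?_
    rw [← norm_ne_zero_iff, hnorm, norm_ne_zero_iff]
    exact hg0
  have hord : analyticOrderAt Z t = k := by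
    have h1 := Pool.Agent.W54.TCF.order_eq t hon
    rw [hk]
    exact h1
  have hlow : ∀ i < k, iteratedDeriv i Z t = 0 := by
    have h2 : AnalyticAt ℝ Z t := Pool.Agent.W54.TCF.Z_analytic t
    rw [← natCast_le_analyticOrderAt_iff_iteratedDeriv_eq_zero h2, hord]
  have hm : mult t = k := by
    unfold mult
    apply le_antisymm
    · exact Nat.sInf_le hder0
    · refine le_csInf ⟨k, hder0⟩ fun i hi => ?_
      by_contra hcon
      exact hi (hlow i (by omega))
  refine ⟨by rw [hm, hnk], ?_⟩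
  rw [hm, hder, norm_mul, hnorm, ← hlg, Complex.norm_natCast]
  have : (k.factorial : ℝ) ≠ 0 := by exact_mod_cast k.factorial_ne_zero
  field_simp

/-! ### The data of zeta -/

theorem eg : Pool.Agent.N41.RM.EG (P := Nat.Primes) (N := 1) 0 (fun p => (p : ℝ)) (fun _ _ => 1) where
  two_le := fun p => by exact_mod_cast p.2.two_le
  sum := fun σ hσ => Nat.Primes.summable_rpow.2 (by linarith)
  ha := fun p j => by simp
  real := fun p k => by simp

theorem zeta_prod {s : ℂ} (hs : 1 + (0 : ℝ) < s.re) : riemannZeta s =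
    ∏' p : Nat.Primes, ∏ _j : Fin 1, (1 - 1 * (((p : ℝ) : ℂ)) ^ (-s))⁻¹ := by
  rw [add_zero] at hs
  rw [← riemannZeta_eulerProduct_tprod hs]
  simp

theorem term_eq (γ t T : ℝ) (x : Nat.Primes × ℕ) : term γ t T x =
    Pool.Agent.N41.RM.oterm (fun p : Nat.Primes => (p : ℝ)) (fun _ (_ : Fin 1) => 1) (1 / 2) t γ T x := by
  have hp : (0 : ℝ) < (x.1 : ℝ) := by exact_mod_cast x.1.2.pos
  unfold term Pool.Agent.N41.RM.oterm
  have h1 : Real.sqrt ((x.1 : ℝ) ^ (x.2 + 1)) = (x.1 : ℝ) ^ ((1 / 2 : ℝ) * (x.2 + 1)) := by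
    rw [Real.sqrt_eq_rpow, ← Real.rpow_natCast, ← Real.rpow_mul hp.le]
    congr 1
    push_cast
    ring
  rw [h1]
  congr 2
  simp
  rw [div_eq_mul_inv, mul_inv, mul_comm, mul_comm ((x.2 + 1 : ℝ)⁻¹)]

/-- the law -/
theorem law (γ : ℝ) (hγ : Real.pi / 2 < γ) (t : ℝ) :
    iteratedDeriv (mult t) Z t ≠ 0 ∧
    (fun T : ℝ => V γ t T - (-(mult t) * (Real.log T - Lam γ) +
        Real.log (‖iteratedDeriv (mult t) Z t‖ / (mult t).factorial) -
        Real.pi * zerosRight t * I)) =O[atTop] (fun T : ℝ => 1 / T) := by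
  obtain ⟨n, l, h1, h2, h3, h4⟩ := eg.off Pool.Agent.TH958.An.zeta_mero
    (fun s hs => zeta_prod hs) (1 / 2) t hγ
  have e0 : (((1 / 2 : ℝ) : ℂ) + t * I) = 1 / 2 + t * I := by push_cast; rfl
  rw [e0] at h1 h2
  obtain ⟨h5, h6⟩ := mult_spec t h1 h2 h3
  constructor
  · intro h7
    rw [h7, norm_zero, zero_div] at h6
    exact h3 (norm_eq_zero.1 h6.symm)
  · refine h4.congr_left fun T => ?_
    have h7 : (∑' x, Pool.Agent.N41.RM.oterm (fun p : Nat.Primes => (p : ℝ))
        (fun _ (_ : Fin 1) => 1) (1 / 2) t γ T x) = V γ t T := by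
      unfold V
      exact tsum_congr fun x => (term_eq γ t T x).symm
    have h8 : Pool.Agent.N41.RM.rayN riemannZeta (1 / 2) t = zerosRight t := rfl
    have h9 : Pool.Agent.W187.UR.Lam γ = Lam γ := rfl
    rw [h7, h6, h8, h9, h5]
    push_cast
    ring

lemma exp_lim {W : ℝ → ℂ} {m : ℕ} {Λ c : ℂ}
    (h : (fun T : ℝ => W T - (-m * (Real.log T - Λ) + c)) =O[atTop] (fun T : ℝ => 1 / T)) :
    Tendsto (fun T : ℝ => T ^ m * Real.exp (W T).re) atTop (𝓝 (Real.exp (m * Λ + c).re)) := by
  have h1 : Tendsto (fun T : ℝ => W T - (-m * (Real.log T - Λ) + c)) atTop (𝓝 0) := by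
    refine h.trans_tendsto ?_
    exact tendsto_const_nhds.div_atTop tendsto_id
  have h2 := (Real.continuous_exp.tendsto _).comp
    (((Complex.continuous_re.tendsto 0).comp h1).add_const (m * Λ + c).re)
  rw [Complex.zero_re, zero_add] at h2
  refine h2.congr' ?_
  filter_upwards [eventually_gt_atTop 0] with T hT
  simp only [Function.comp_apply]
  have h3 : (W T - (-m * (Real.log T - Λ) + c)).re + (m * Λ + c).re =
      m * Real.log T + (W T).re := by
    rw [← Complex.add_re]
    have : W T - (-m * (Real.log T - Λ) + c) + (m * Λ + c) = ((m * Real.log T : ℝ) : ℂ) + W T := by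
      push_cast; ring
    rw [this, Complex.add_re, Complex.ofReal_re]
  rw [h3, Real.exp_add, Real.exp_nat_mul, Real.exp_log hT]

lemma simple_iff (t : ℝ) (h : iteratedDeriv (mult t) Z t ≠ 0) :
    (Z t = 0 → deriv Z t ≠ 0) ↔ mult t ≤ 1 := by
  constructor
  · intro h1
    by_cases h2 : Z t = 0
    · have h3 := h1 h2
      rw [← iteratedDeriv_one] at h3
      exact Nat.sInf_le h3
    · rw [← iteratedDeriv_zero (f := Z)] at h2
      exact (Nat.sInf_le (m := 0) h2).trans zero_le_one
  · intro h1 h2 h3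
    interval_cases hm : mult t
    · rw [iteratedDeriv_zero] at h
      exact h h2
    · rw [iteratedDeriv_one] at h
      exact h h3

/-- **The multiplicities of the zeros of Hardy's function from sums over primes.**  Let `γ > π/2`.

* `V(t,T)` converges absolutely for all real `t` and `T > 0`.
* For every real `t`, with the multiplicity `m = mult t`,
  `V(t,T) = -m (log T - Λ_γ) + log (|Z^(m)(t)| / m!) - π i N + O(1/T)` as `T → ∞`, where
  `N = zerosRight t` is the number of the zeros of zeta on the half line to the right of `1/2 + it`.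
* For every real `t` and every `m` the assertions `mult t = m`, `Re V(t,T) / log T → -m` and
  `Re V(t,T_k) / log T_k → -m` for one sequence `T_k → ∞` are equivalent.
* All real zeros of `Z` are simple if and only if for every real `t` the function
  `T² exp (Re V(t,T))` tends to infinity, and if and only if it is unbounded above on a sequence
  `T_k → ∞`, for every real `t`. -/
theorem result (γ : ℝ) (hγ : Real.pi / 2 < γ) :
    (∀ t T : ℝ, 0 < T → Summable fun x => ‖term γ t T x‖) ∧
    (∀ t : ℝ, iteratedDeriv (mult t) Z t ≠ 0 ∧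
      (fun T : ℝ => V γ t T - (-(mult t) * (Real.log T - Lam γ) +
        Real.log (‖iteratedDeriv (mult t) Z t‖ / (mult t).factorial) -
        Real.pi * zerosRight t * I)) =O[atTop] (fun T : ℝ => 1 / T)) ∧
    (∀ (t : ℝ) (m : ℕ), List.TFAE [
      mult t = m,
      Tendsto (fun T : ℝ => (V γ t T).re / Real.log T) atTop (𝓝 (-m)),
      ∃ τ : ℕ → ℝ, Tendsto τ atTop atTop ∧
        Tendsto (fun k => (V γ t (τ k)).re / Real.log (τ k)) atTop (𝓝 (-m))]) ∧
    List.TFAE [
      ∀ t : ℝ, Z t = 0 → deriv Z t ≠ 0,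
      ∀ t : ℝ, Tendsto (fun T : ℝ => T ^ 2 * Real.exp (V γ t T).re) atTop atTop,
      ∀ t : ℝ, ∃ τ : ℕ → ℝ, Tendsto τ atTop atTop ∧
        Tendsto (fun k => τ k ^ 2 * Real.exp (V γ t (τ k)).re) atTop atTop] := by
  have hseq : Tendsto (fun k : ℕ => (k : ℝ)) atTop atTop := tendsto_natCast_atTop_atTop
  have hlim : ∀ t : ℝ, Tendsto (fun T : ℝ => (V γ t T).re / Real.log T) atTop (𝓝 (-(mult t))) := by
    intro t
    have h1 := (law γ hγ t).2
    have h2 := Pool.Agent.N41.RM.re_of_law (W := V γ t) (r := -(mult t : ℤ)) (Λ := Lam γ)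
      (c := Real.log (‖iteratedDeriv (mult t) Z t‖ / (mult t).factorial) -
        Real.pi * zerosRight t * I) (by
        refine h1.congr_left fun T => ?_
        push_cast
        ring)
    push_cast at h2
    exact h2
  have hexp : ∀ t : ℝ, ∃ C : ℝ, 0 < C ∧
      Tendsto (fun T : ℝ => T ^ (mult t) * Real.exp (V γ t T).re) atTop (𝓝 C) := by
    intro t
    have h1 := (law γ hγ t).2
    refine ⟨_, Real.exp_pos _, exp_lim (W := V γ t) (m := mult t) (Λ := Lam γ)
      (c := Real.log (‖iteratedDeriv (mult t) Z t‖ / (mult t).factorial) -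
        Real.pi * zerosRight t * I) ?_⟩
    refine h1.congr_left fun T => ?_
    ring
  refine ⟨fun t T hT => ?_, fun t => law γ hγ t, fun t m => ?_, ?_⟩
  · exact (eg.oterm_summable (1 / 2) t γ hT).congr fun x => by rw [term_eq]
  · tfae_have 1 → 2 := by
      intro h
      rw [← h]
      exact hlim t
    tfae_have 2 → 3 := fun h => ⟨fun k => k, hseq, h.comp hseq⟩
    tfae_have 3 → 1 := by
      rintro ⟨τ, hτ, h⟩
      have h1 := tendsto_nhds_unique h ((hlim t).comp hτ)
      have h2 : (mult t : ℝ) = m := by linarith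
      exact_mod_cast h2
    tfae_finish
  · tfae_have 1 → 2 := by
      intro h t
      have hm := (simple_iff t (law γ hγ t).1).1 (h t)
      obtain ⟨C, hC, hlimC⟩ := hexp t
      have h1 : Tendsto (fun T : ℝ => T ^ (2 - mult t)) atTop atTop :=
        tendsto_pow_atTop (by omega)
      refine (h1.atTop_mul_pos hC hlimC).congr fun T => ?_
      rw [← mul_assoc, ← pow_add]
      congr 2
      omega
    tfae_have 2 → 3 := fun h t => ⟨fun k => k, hseq, (h t).comp hseq⟩
    tfae_have 3 → 1 := by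
      intro h t
      rw [simple_iff t (law γ hγ t).1]
      by_contra hcon
      push Not at hcon
      obtain ⟨τ, hτ, hlimτ⟩ := h t
      obtain ⟨C, hC, hlimC⟩ := hexp t
      have h1 := hlimC.comp hτ
      have h2 : Tendsto (fun k => τ k ^ (mult t) * Real.exp (V γ t (τ k)).re) atTop atTop := by
        refine tendsto_atTop_mono' _ ?_ hlimτ
        filter_upwards [hτ.eventually (eventually_ge_atTop 1)] with k hk
        have := pow_le_pow_right₀ hk (show 2 ≤ mult t by omega)
        gcongr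
      exact not_tendsto_nhds_of_tendsto_atTop h2 C h1
    tfae_finish

end Pool.Agent.Results.MP_6bc78b_nt.MultiplicitiesFromPrimes
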