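import Pool.Agent.N802.WD.Fin2
import Pool.Agent.TH803.UC.Sets

/-!
# Simple zeros of Hardy's function have a share of 67.25 % in every weight `|R|²`

Unconditionally, for every `ε > 0` there is a `δ > 0` such that for all large `T`, all intervals
`(T, T + K]` with `T ^ (1 - δ) ≤ K ≤ T / 2` and every Dirichlet polynomial
`R(t) = ∑ r(n) n ^ (- i t)` over integers `n ≤ T ^ δ` with arbitrary complex coefficients: the sum
of `|R(γ)|²` over all nontrivial zeros `β + iγ` of zeta with `T < γ ≤ T + K`, counted with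
multiplicity, is between `1 - ε` and `1 + ε` times `(K / 2π) log T ∑ |r(n)|²`, and at least
`0.6725 - ε` of it comes from the simple zeros of Hardy's function `Z`.

The proof: a Montgomery-Taylor bound weighted by `|R|²` in windows of width `H₀ / log T`; the zeros
off the line are controlled by a density theorem of Selberg's strength for all these weights
(`Pool.Agent.N802.WD`).
-/

open Filter Topology Complex

namespace Pool.Agent.Results.MP_6bc78b_nt.SimpleZerosEveryWeight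

/-- the phase `exp (i ϑ(t))`, with `ϑ(t) = arg Γ(1/4 + i t / 2) - (t / 2) log π` -/
noncomputable def phase (t : ℝ) : ℂ :=
  Gamma (1 / 4 + I * t / 2) / ‖Gamma (1 / 4 + I * t / 2)‖ * cexp (-(I * (t / 2) * Real.log Real.pi))

/-- Hardy's function `Z(t) = exp (i ϑ(t)) ζ(1/2 + i t)` -/
noncomputable def Z (t : ℝ) : ℂ := phase t * riemannZeta (1 / 2 + I * t)

/-- the simple zeros of `Z` in `(T₁, T₂]` -/
def simpleZeros (T₁ T₂ : ℝ) : Set ℝ := {t : ℝ | T₁ < t ∧ t ≤ T₂ ∧ Z t = 0 ∧ deriv Z t ≠ 0}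

/-- all zeros of zeta in the open critical strip with ordinates in `(T₁, T₂]` -/
def allZeros (T₁ T₂ : ℝ) : Set ℂ :=
  {s : ℂ | riemannZeta s = 0 ∧ 0 < s.re ∧ s.re < 1 ∧ T₁ < s.im ∧ s.im ≤ T₂}

/-- the multiplicity of a zero of zeta -/
noncomputable def mult (s : ℂ) : ℕ := analyticOrderNatAt riemannZeta s

/-- the Dirichlet polynomial `∑ r(n) n ^ (- i t)`, `n` in `S` -/
noncomputable def R (S : Finset ℕ) (r : ℕ → ℂ) (t : ℝ) : ℂ :=
  ∑ n ∈ S, r n * (n : ℂ) ^ (-(I * t))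

/-- the main term `(K / 2π) log T ∑ |r(n)|²` -/
noncomputable def main (T K : ℝ) (S : Finset ℕ) (r : ℕ → ℂ) : ℝ :=
  K / (2 * Real.pi) * Real.log T * ∑ n ∈ S, ‖r n‖ ^ 2

lemma gamma_ne (t : ℝ) : Gamma (1 / 4 + I * t / 2) ≠ 0 := by
  apply Gamma_ne_zero_of_re_pos
  simp

lemma gamma_cont : Continuous fun t : ℝ => Gamma (1 / 4 + I * t / 2) := by
  rw [continuous_iff_continuousAt]
  intro t
  have h1 : ContinuousAt Gamma (1 / 4 + I * t / 2) := by
    refine (differentiableAt_Gamma _ fun m hm => ?_).continuousAt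
    have := congrArg Complex.re hm
    simp at this
    have hm0 : (0 : ℝ) ≤ m := Nat.cast_nonneg m
    linarith
  exact ContinuousAt.comp (f := fun t : ℝ => (1 / 4 + I * t / 2 : ℂ)) h1 (by fun_prop)

lemma phase_cont : Continuous phase := by
  unfold phase
  refine Continuous.mul (gamma_cont.div ?_ ?_) (by fun_prop)
  · exact Complex.continuous_ofReal.comp gamma_cont.norm
  · intro t
    rw [Complex.ofReal_ne_zero]
    exact norm_ne_zero_iff.mpr (gamma_ne t)

lemma phase_ne (t : ℝ) : phase t ≠ 0 := by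
  unfold phase
  refine mul_ne_zero (div_ne_zero (gamma_ne t) ?_) (Complex.exp_ne_zero _)
  rw [Complex.ofReal_ne_zero]
  exact norm_ne_zero_iff.mpr (gamma_ne t)

lemma Z_zero_iff (t : ℝ) : Z t = 0 ↔ riemannZeta (1 / 2 + I * t) = 0 := by
  unfold Z
  rw [mul_eq_zero]
  exact ⟨fun h => h.resolve_left (phase_ne t), Or.inr⟩

lemma half_ne (t : ℝ) : (1 / 2 + I * t : ℂ) ≠ 1 := by
  intro h
  have := congrArg Complex.re h
  norm_num at this

/-- the derivative of `Z` at a zero -/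
lemma Z_hasDerivAt (t : ℝ) (h : riemannZeta (1 / 2 + I * t) = 0) :
    HasDerivAt Z (phase t * (deriv riemannZeta (1 / 2 + I * t) * I)) t := by
  have hg : HasDerivAt (fun u : ℝ => riemannZeta (1 / 2 + I * u))
      (deriv riemannZeta (1 / 2 + I * t) * I) t := by
    have h1 : HasDerivAt (fun u : ℝ => (1 / 2 + I * u : ℂ)) I t := by
      have h2 : HasDerivAt (fun u : ℝ => (u : ℂ)) 1 t := Complex.ofRealCLM.hasDerivAt
      simpa using (h2.const_mul I).const_add (1 / 2 : ℂ)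
    exact HasDerivAt.comp (h₂ := riemannZeta) t
      (differentiableAt_riemannZeta (half_ne t)).hasDerivAt h1
  rw [hasDerivAt_iff_tendsto_slope] at hg ⊢
  have h3 : Tendsto phase (𝓝[≠] t) (𝓝 (phase t)) :=
    phase_cont.continuousAt.tendsto.mono_left nhdsWithin_le_nhds
  refine (h3.mul hg).congr fun u => ?_
  have hZ : Z t = 0 := (Z_zero_iff t).mpr h
  rw [slope_def_module, slope_def_module, hZ, h, sub_zero, sub_zero]
  unfold Z
  simp only [Complex.real_smul]
  ring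

lemma zeros_eq {T₁ T₂ : ℝ} (h : 1 ≤ T₁) :
    allZeros T₁ T₂ = (H370.Zf riemannZeta T₁ T₂ : Set ℂ) := by
  ext s
  rw [Finset.mem_coe, H370.mem_Zf H370.good_zeta h]
  unfold allZeros H370.zset
  simp only [Set.mem_ofPred_eq]
  tauto

open Classical in
/-- the simple critical zeros of zeta -/
noncomputable def sc (T₁ T₂ : ℝ) : Finset ℂ :=
  (H370.Zf riemannZeta T₁ T₂).filter (fun s => s.re = 1 / 2 ∧ H370.mult riemannZeta s = 1)

lemma sc_inj (T₁ T₂ : ℝ) : Set.InjOn Complex.im (sc T₁ T₂ : Set ℂ) := by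
  classical
  intro s hs s' hs' h
  unfold sc at hs hs'
  rw [Finset.mem_coe, Finset.mem_filter] at hs hs'
  exact Complex.ext (hs.2.1.trans hs'.2.1.symm) h

lemma simple_eq {T₁ T₂ : ℝ} (h : 1 ≤ T₁) : simpleZeros T₁ T₂ = Complex.im '' (sc T₁ T₂ : Set ℂ) := by
  classical
  ext t
  constructor
  · rintro ⟨h1, h2, h3, h4⟩
    have h5 := (Z_zero_iff t).mp h3
    refine ⟨1 / 2 + I * t, ?_, by simp⟩
    unfold sc
    rw [Finset.mem_coe, Finset.mem_filter, H370.mem_Zf H370.good_zeta h]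
    refine ⟨⟨?_, ?_, ?_, ?_, h5⟩, ?_, ?_⟩ <;> try simp <;> try assumption
    · norm_num
    · have h6 : deriv riemannZeta (1 / 2 + I * t) ≠ 0 := by
        intro h7
        apply h4
        rw [(Z_hasDerivAt t h5).deriv, h7]
        ring
      have h8 := (TH803UC.zeta_analytic (half_ne t)).analyticOrderAt_eq_one_of_zero_deriv_ne_zero
        h5 h6
      rw [show (2⁻¹ + I * (t : ℂ)) = 1 / 2 + I * t by norm_num]
      unfold H370.mult analyticOrderNatAt
      rw [h8]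
      rfl
  · rintro ⟨s, hs, rfl⟩
    unfold sc at hs
    rw [Finset.mem_coe, Finset.mem_filter, H370.mem_Zf H370.good_zeta h] at hs
    obtain ⟨⟨-, -, h3, h4, h5⟩, h6, h7⟩ := hs
    have e1 : (1 / 2 + I * (s.im : ℂ) : ℂ) = s := by
      apply Complex.ext <;> simp [h6]
    have h8 : riemannZeta (1 / 2 + I * (s.im : ℂ)) = 0 := by rw [e1]; exact h5
    refine ⟨h3, h4, (Z_zero_iff _).mpr h8, ?_⟩
    rw [(Z_hasDerivAt _ h8).deriv]
    refine mul_ne_zero (phase_ne _) (mul_ne_zero ?_ I_ne_zero)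
    rw [e1]
    refine TH803UC.deriv_of_order ?_ h5 h7
    rintro rfl
    norm_num at h6

/-- the sets of zeros are finite -/
theorem simpleZeros_finite (T₁ T₂ : ℝ) (h : 1 ≤ T₁) : (simpleZeros T₁ T₂).Finite := by
  rw [simple_eq h]
  exact (Finset.finite_toSet _).image _

theorem allZeros_finite (T₁ T₂ : ℝ) (h : 1 ≤ T₁) : (allZeros T₁ T₂).Finite := by
  rw [zeros_eq h]
  exact Finset.finite_toSet _

lemma R_eq {S : Finset ℕ} {N : ℝ} (hS : ∀ n ∈ S, 1 ≤ n ∧ (n : ℝ) ≤ N) (r : ℕ → ℂ) (t : ℝ) :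
    R S r t = N802.RP S r t := by
  unfold R N802.RP N802.TP
  refine Finset.sum_congr rfl fun n hn => ?_
  have hn0 : (n : ℂ) ≠ 0 := by
    have := (hS n hn).1
    exact_mod_cast (by omega : n ≠ 0)
  congr 1
  unfold N802.mn
  rw [Complex.cpow_def_of_ne_zero hn0, ← Complex.natCast_log]
  congr 1
  rw [Nat.cast_one, Real.log_one]
  push_cast
  ring

theorem result : ∀ ε : ℝ, 0 < ε → ∃ δ T₀ : ℝ, 0 < δ ∧ ∀ T : ℝ, T₀ ≤ T →
    ∀ K : ℝ, T ^ (1 - δ) ≤ K → K ≤ T / 2 →
    ∀ S : Finset ℕ, (∀ n ∈ S, 1 ≤ n ∧ (n : ℝ) ≤ T ^ δ) → ∀ r : ℕ → ℂ,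
    (0.6725 - ε) * main T K S r ≤ ∑ᶠ t ∈ simpleZeros T (T + K), ‖R S r t‖ ^ 2 ∧
    |∑ᶠ s ∈ allZeros T (T + K), (mult s : ℝ) * ‖R S r s.im‖ ^ 2 - main T K S r| ≤
      ε * main T K S r := by
  classical
  intro ε hε
  obtain ⟨e, he0, he1, heε⟩ : ∃ e : ℝ, 0 < e ∧ e < 1 ∧ e ≤ ε :=
    ⟨min ε (1 / 2), lt_min hε (by norm_num), (min_le_right _ _).trans_lt (by norm_num),
      min_le_left _ _⟩
  obtain ⟨δ, T0, hδ, hT0, h⟩ := N802.WD.simple_zeta e he0 he1
  refine ⟨δ, T0, hδ, fun T hT K hK1 hK2 S hS r => ?_⟩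
  have hT1 : 1 ≤ T := by linarith
  obtain ⟨h1, h2, h3⟩ := h T hT K hK1 hK2 S hS r
  have hK0 : 0 ≤ K := le_trans (by positivity) hK1
  have hm : 0 ≤ main T K S r := by
    unfold main
    have := Real.log_nonneg hT1
    have := Real.pi_pos
    positivity
  have hm' : K / (2 * Real.pi) * Real.log T * N802.w1 S r = main T K S r := rfl
  rw [hm'] at h1 h2 h3
  have e1 : ∑ᶠ t ∈ simpleZeros T (T + K), ‖R S r t‖ ^ 2 =
      ∑ s ∈ H370.Zf riemannZeta T (T + K), N802.WD.cs riemannZeta s *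
        ‖N802.RP S r s.im‖ ^ 2 := by
    rw [simple_eq hT1, finsum_mem_image (sc_inj T (T + K)), finsum_mem_coe_finset]
    unfold sc
    rw [Finset.sum_filter]
    refine Finset.sum_congr rfl fun s _ => ?_
    unfold N802.WD.cs
    split_ifs with hc
    · rw [R_eq hS, one_mul]
    · rw [zero_mul]
  have e2 : ∑ᶠ s ∈ allZeros T (T + K), (mult s : ℝ) * ‖R S r s.im‖ ^ 2 =
      ∑ s ∈ H370.Zf riemannZeta T (T + K), (H370.mult riemannZeta s : ℝ) *
        ‖N802.RP S r s.im‖ ^ 2 := by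
    rw [zeros_eq hT1, finsum_mem_coe_finset]
    exact Finset.sum_congr rfl fun s _ => by rw [R_eq hS]; rfl
  have hem : e * main T K S r ≤ ε * main T K S r := mul_le_mul_of_nonneg_right heε hm
  rw [e1, e2]
  refine ⟨?_, ?_⟩
  · refine le_trans ?_ h1
    linarith
  · rw [abs_le]
    constructor <;> linarith

end Pool.Agent.Results.MP_6bc78b_nt.SimpleZerosEveryWeight
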