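import Pool.Agent.N802.U.Box
import Pool.Agent.N802.U.Alg
import Pool.Agent.N802.U.Core
import Pool.Agent.N802.U.Win
import Pool.Agent.N802.U.Ms
import Pool.Agent.N802.U.Ef
import Pool.Agent.N802.U.Fm
import Pool.Agent.TH803.UC.Sets

/-!
# Simple zeros of Hardy's function at which all small integers have prescribed phases

Unconditionally, for every `ε > 0`, all large `T` and every completely multiplicative function `f`
with values of modulus one, at least `T ^ (1 - ε)` of the zeros `t` of `Z` in `(T, 2T]` are simple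
and satisfy `|n ^ (i t) - f(n)| ≤ ε log n / log log T` for all integers
`n ≤ log T / (log log T) ^ (2 + ε)` at once.

The proof: a lower bound for the number of simple zeros on the critical line in windows of length
`1 / log log T`, weighted by the square of a Dirichlet polynomial of length `T ^ δ` which is
supported on the integers without prime factors larger than `δ (log T)²`. It is applied to the
products of `((1 + f(p) p ^ (- i t)) / 2) ^ D_p`.
-/

open Filter Topology Complex

namespace Pool.Agent.Results.MP_6bc78b_nt.SimpleZerosPrescribedValues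

/-- the phase `exp (i ϑ(t))`, with `ϑ(t) = arg Γ(1/4 + i t / 2) - (t / 2) log π` -/
noncomputable def phase (t : ℝ) : ℂ :=
  Gamma (1 / 4 + I * t / 2) / ‖Gamma (1 / 4 + I * t / 2)‖ * cexp (-(I * (t / 2) * Real.log Real.pi))

/-- Hardy's function `Z(t) = exp (i ϑ(t)) ζ(1/2 + i t)` -/
noncomputable def Z (t : ℝ) : ℂ := phase t * riemannZeta (1 / 2 + I * t)

/-- the simple zeros `t` of `Z` in `(T, 2T]` with `|n ^ (i t) - f(n)| ≤ ε log n / log log T` for all
integers `1 ≤ n ≤ log T / (log log T) ^ (2 + ε)` -/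
def zerosWithValues (T ε : ℝ) (f : ℕ → ℂ) : Set ℝ :=
  {t : ℝ | T < t ∧ t ≤ 2 * T ∧ Z t = 0 ∧ deriv Z t ≠ 0 ∧
    ∀ n : ℕ, 0 < n → (n : ℝ) ≤ Real.log T / Real.log (Real.log T) ^ (2 + ε) →
      ‖(n : ℂ) ^ (I * t) - f n‖ ≤ ε * Real.log n / Real.log (Real.log T)}

lemma gamma_ne (t : ℝ) : Gamma (1 / 4 + I * t / 2) ≠ 0 := by
  apply Gamma_ne_zero_of_re_pos
  simp

lemma gamma_cont : Continuous fun t : ℝ => Gamma (1 / 4 + I * t / 2) := by
  rw [continuous_iff_continuousAt]
  intro t
  have h1 : ContinuousAt Gamma (1 / 4 + I * t / 2) := by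
    refine (differentiableAt_Gamma _ fun m hm => ?_).continuousAt
    have := congrArg Complex.re hm
    simp at this
    have hm0 : (0 : ℝ) ≤ m := Nat.cast_nonneg m
    linarith
  exact ContinuousAt.comp (f := fun t : ℝ => (1 / 4 + I * t / 2 : ℂ)) h1 (by fun_prop)

lemma phase_cont : Continuous phase := by
  unfold phase
  refine Continuous.mul (gamma_cont.div ?_ ?_) (by fun_prop)
  · exact Complex.continuous_ofReal.comp gamma_cont.norm
  · intro t
    rw [Complex.ofReal_ne_zero]
    exact norm_ne_zero_iff.mpr (gamma_ne t)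

lemma phase_ne (t : ℝ) : phase t ≠ 0 := by
  unfold phase
  refine mul_ne_zero (div_ne_zero (gamma_ne t) ?_) (Complex.exp_ne_zero _)
  rw [Complex.ofReal_ne_zero]
  exact norm_ne_zero_iff.mpr (gamma_ne t)

lemma Z_zero_iff (t : ℝ) : Z t = 0 ↔ riemannZeta (1 / 2 + I * t) = 0 := by
  unfold Z
  rw [mul_eq_zero]
  exact ⟨fun h => h.resolve_left (phase_ne t), Or.inr⟩

lemma zeta_diff (t : ℝ) : DifferentiableAt ℂ riemannZeta (1 / 2 + I * t) := by
  refine differentiableAt_riemannZeta fun h => ?_
  have := congrArg Complex.re h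
  norm_num at this

/-- the derivative of `Z` at a zero -/
lemma Z_hasDerivAt (t : ℝ) (h : riemannZeta (1 / 2 + I * t) = 0) :
    HasDerivAt Z (phase t * (deriv riemannZeta (1 / 2 + I * t) * I)) t := by
  have hg : HasDerivAt (fun u : ℝ => riemannZeta (1 / 2 + I * u))
      (deriv riemannZeta (1 / 2 + I * t) * I) t := by
    have h1 : HasDerivAt (fun u : ℝ => (1 / 2 + I * u : ℂ)) I t := by
      have h2 : HasDerivAt (fun u : ℝ => (u : ℂ)) 1 t := Complex.ofRealCLM.hasDerivAt
      simpa using (h2.const_mul I).const_add (1 / 2 : ℂ)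
    exact HasDerivAt.comp (h₂ := riemannZeta) t (zeta_diff t).hasDerivAt h1
  rw [hasDerivAt_iff_tendsto_slope] at hg ⊢
  have h3 : Tendsto phase (𝓝[≠] t) (𝓝 (phase t)) :=
    phase_cont.continuousAt.tendsto.mono_left nhdsWithin_le_nhds
  refine (h3.mul hg).congr fun u => ?_
  have hZ : Z t = 0 := (Z_zero_iff t).mpr h
  rw [slope_def_module, slope_def_module, hZ, h, sub_zero, sub_zero]
  unfold Z
  simp only [Complex.real_smul]
  ring

/-- the sets of zeros are finite -/
theorem zerosWithValues_finite (T ε : ℝ) (f : ℕ → ℂ) (hT : 0 < T) :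
    (zerosWithValues T ε f).Finite := by
  have hinj : Function.Injective fun t : ℝ => (1 / 2 + I * t : ℂ) := by
    intro a b hab
    have := congrArg Complex.im hab
    simpa using this
  refine Set.Finite.of_finite_image
    ((H370.zset_finite' H370.good_zeta T (2 * T) hT).subset ?_) hinj.injOn
  rintro s ⟨t, ⟨h1, h2, h3, -⟩, rfl⟩
  refine ⟨?_, ?_, ?_, ?_, (Z_zero_iff t).mp h3⟩ <;> simp <;> first | assumption | norm_num

/-- the inequality for all Dirichlet polynomials with smooth support -/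
theorem core_zeta : N802.U.S_core riemannZeta :=
  N802.U.core (N802.U.win N802.U.kern) N802.U.sq N802.U.pl N802.U.gsq (N802.U.ms N802.U.gsq)
    (N802.U.fm N802.U.gsq) H370.good_zeta TH803UC.dens_zeta (N802.U.ef H370.good_zeta)

theorem result : ∀ ε : ℝ, 0 < ε → ∃ T₀ : ℝ, ∀ T : ℝ, T₀ ≤ T → ∀ f : ℕ → ℂ,
    (∀ n : ℕ, 0 < n → ‖f n‖ = 1) → (∀ m n : ℕ, 0 < m → 0 < n → f (m * n) = f m * f n) →
      T ^ (1 - ε) ≤ ((zerosWithValues T ε f).ncard : ℝ) := by
  intro ε hε
  set e := min ε (1 / 2) with he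
  have he0 : 0 < e := lt_min hε (by norm_num)
  have he1 : e < 1 := (min_le_right _ _).trans_lt (by norm_num)
  have heε : e ≤ ε := min_le_left _ _
  obtain ⟨T0, h⟩ := N802.U.box H370.good_zeta core_zeta e he0 he1
  have ev : ∀ᶠ T : ℝ in atTop, 1 ≤ Real.log (Real.log T) ∧ 0 ≤ Real.log T ∧ 1 ≤ T :=
    ((Real.tendsto_log_atTop.comp Real.tendsto_log_atTop).eventually_ge_atTop _).and
      ((Real.tendsto_log_atTop.eventually_ge_atTop _).and (eventually_ge_atTop _))
  obtain ⟨T1, hT1⟩ := eventually_atTop.1 ev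
  refine ⟨max T0 T1, fun T hT f hf1 hfm => ?_⟩
  obtain ⟨g1, g2, g3⟩ := hT1 T ((le_max_right _ _).trans hT)
  obtain ⟨B, hB, hBc⟩ := h T ((le_max_left _ _).trans hT) f hf1 hfm
  have hl0 : 0 < Real.log (Real.log T) := by linarith
  have hsub : (B : Set ℝ) ⊆ zerosWithValues T ε f := by
    intro t ht
    obtain ⟨h1, h2, h3, h4, h5⟩ := hB t ht
    refine ⟨h1, h2, (Z_zero_iff t).mpr h3, ?_, fun n hn hny => ?_⟩
    · rw [(Z_hasDerivAt _ h3).deriv]
      refine mul_ne_zero (phase_ne _) (mul_ne_zero ?_ I_ne_zero)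
      refine TH803UC.deriv_of_order ?_ h3 h4
      intro h9
      have := congrArg Complex.re h9
      norm_num at this
    · refine (h5 n hn (hny.trans ?_)).trans ?_
      · apply div_le_div_of_nonneg_left g2 (by positivity)
        exact Real.rpow_le_rpow_of_exponent_le g1 (by linarith)
      · have hn1 : (1 : ℝ) ≤ n := by exact_mod_cast hn
        have := Real.log_nonneg hn1
        exact div_le_div_of_nonneg_right (mul_le_mul_of_nonneg_right heε this) hl0.le
  have hcard := Set.ncard_le_ncard hsub (zerosWithValues_finite T ε f (by linarith))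
  rw [Set.ncard_coe_finset] at hcard
  calc T ^ (1 - ε) ≤ T ^ (1 - e) := Real.rpow_le_rpow_of_exponent_le g3 (by linarith)
    _ ≤ (B.card : ℝ) := hBc
    _ ≤ _ := by exact_mod_cast hcard

end Pool.Agent.Results.MP_6bc78b_nt.SimpleZerosPrescribedValues
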